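import Mathlib

/-!
# Secluded partitions into translates of a parallelepiped

Let `E` be a real normed space of dimension `d` and let `P` be a partition of `E` whose members are translates of
one parallelepiped (with arbitrary parts of the boundary), for instance a partition of `ℝ^d` into unit hypercubes,
where `ℝ^d` has the maximum norm. Let every closed ball with radius `ε` meet at most `d + 1` members. If the members
have diameter at most `D`, then `ε ≤ D / (2 d)`.

Proof (in coordinates in which the members are unit cubes). Let `K` be a member, `v` its lower corner and `w_i` the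
member on the other side of the face `x_i = v_i` near `v`. The `d + 1` members `K, w_1, …, w_d` are different, so
there are no other members at `v`. There is a direction `m` such that every `w_i`, `i ≠ m`, starts below `v` in the
direction `m`: otherwise there is a nonempty set `C` of directions and a permutation `f` of `C` such that `w_{f(k)}`
does not reach below `v` in direction `k`, and the orthant with the set `C` of negative coordinates is covered by
none of the `d + 1` members. Along the edge of `K` in direction `m`, from `v` to the opposite corner `v'`, at least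
`d + 1` members start: `K`, the member after `K`, and the `d - 1` members on the other sides of the edge just
before `v'`, which start in the interior of the edge by the choice of `m`. So two of them start at distance at
most `1 / d` (in coordinates). Together with the `d` members at the edge just before the first of the two
starting points these are `d + 2` members, and they meet every neighbourhood of a segment of length `1 / d` in
direction `m`, thus a ball with radius `ε`, if `ε > D / (2 d)`.
-/

set_option autoImplicit false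

open Filter Topology

namespace Pool.Agent.Results.MP_1e9e92_co.TranslatedBoxes

/-- `P` is a partition of `E` -/
structure IsPartition {E : Type} (P : Set (Set E)) : Prop where
  nonempty : ∀ X ∈ P, X.Nonempty
  disjoint : ∀ X ∈ P, ∀ Y ∈ P, X ≠ Y → Disjoint X Y
  cover : ∀ x, ∃ X ∈ P, x ∈ X

/-- all members of `P` are translates of the parallelepiped with the edges `b 1, …, b d`, with any part of
the boundary: in the coordinates of the basis `b` every member lies between an open and the closed unit
cube with the same lower corner `t` -/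
def TranslatesOf {d : ℕ} {E : Type} [NormedAddCommGroup E] [NormedSpace ℝ E]
    (b : Module.Basis (Fin d) ℝ E) (P : Set (Set E)) : Prop :=
  ∀ X ∈ P, ∃ t : Fin d → ℝ, (∀ x, (∀ i, t i < b.repr x i ∧ b.repr x i < t i + 1) → x ∈ X) ∧
    ∀ x ∈ X, ∀ i, t i ≤ b.repr x i ∧ b.repr x i ≤ t i + 1

/-- every closed ball with radius `ε` meets at most `k` members -/
def Secluded {E : Type} [NormedAddCommGroup E] (k : ℕ) (ε : ℝ) (P : Set (Set E)) : Prop :=
  ∀ p : E, {X ∈ P | (X ∩ Metric.closedBall p ε).Nonempty}.encard ≤ k

/-- the open box with lower corner `t` and side lengths `l` -/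
def openBox {d : ℕ} (l t : Fin d → ℝ) : Set (Fin d → ℝ) := {x | ∀ i, t i < x i ∧ x i < t i + l i}

/-- the closed box with lower corner `t` and side lengths `l` -/
def closedBox {d : ℕ} (l t : Fin d → ℝ) : Set (Fin d → ℝ) := {x | ∀ i, t i ≤ x i ∧ x i ≤ t i + l i}

section core

variable {d : ℕ} {ι : Type*} {l : Fin d → ℝ} {t : ι → Fin d → ℝ} {U : Set (Fin d → ℝ)}

/-- the box with lower corner `t` covers, near `q`, the orthant with the set `S` of negative
coordinates -/
structure Cov (l t q : Fin d → ℝ) (S : Finset (Fin d)) : Prop where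
  neg : ∀ i ∈ S, t i < q i ∧ q i ≤ t i + l i
  pos : ∀ i ∉ S, t i ≤ q i ∧ q i < t i + l i

theorem Cov.mix {t q : Fin d → ℝ} {S S' S'' : Finset (Fin d)} (h : Cov l t q S)
    (h' : Cov l t q S') (h1 : ∀ i ∈ S'', i ∈ S ∨ i ∈ S') (h2 : ∀ i ∉ S'', i ∉ S ∨ i ∉ S') :
    Cov l t q S'' :=
  ⟨fun i hi => (h1 i hi).elim (h.neg i) (h'.neg i),
    fun i hi => (h2 i hi).elim (h.pos i) (h'.pos i)⟩

theorem Cov.closed {t q : Fin d → ℝ} {S : Finset (Fin d)} (h : Cov l t q S) (i : Fin d) :
    t i ≤ q i ∧ q i ≤ t i + l i := by
  by_cases hi : i ∈ S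
  · exact ⟨(h.neg i hi).1.le, (h.neg i hi).2⟩
  · exact ⟨(h.pos i hi).1, (h.pos i hi).2.le⟩

open Classical in
/-- the points near `q` in the orthant -/
noncomputable def pt (q : Fin d → ℝ) (S : Finset (Fin d)) (τ : ℝ) : Fin d → ℝ :=
  fun i => if i ∈ S then q i - τ else q i + τ

theorem Cov.eventually {t q : Fin d → ℝ} {S : Finset (Fin d)} (h : Cov l t q S) :
    ∀ᶠ τ in 𝓝[>] (0 : ℝ), pt q S τ ∈ openBox l t := by
  refine eventually_all.2 fun i => ?_
  by_cases hi : i ∈ S
  · have h1 := h.neg i hi
    filter_upwards [Ioo_mem_nhdsGT (sub_pos.2 h1.1)] with τ hτ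
    simp only [pt, if_pos hi]
    exact ⟨by linarith [hτ.2], by linarith [hτ.1]⟩
  · have h1 := h.pos i hi
    filter_upwards [Ioo_mem_nhdsGT (sub_pos.2 h1.2)] with τ hτ
    simp only [pt, if_neg hi]
    exact ⟨by linarith [hτ.1], by linarith [hτ.2]⟩

theorem cov_of_frequently {t q : Fin d → ℝ} {S : Finset (Fin d)}
    (h : ∃ᶠ τ in 𝓝[>] (0 : ℝ), pt q S τ ∈ closedBox l t) : Cov l t q S := by
  have key : ∀ c : ℝ, 0 < c → ∃ τ, 0 < τ ∧ τ < c ∧ pt q S τ ∈ closedBox l t := by
    intro c hc
    obtain ⟨τ, h1, h2⟩ := (h.and_eventually (Ioo_mem_nhdsGT hc)).exists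
    exact ⟨τ, h2.1, h2.2, h1⟩
  constructor
  · intro i hi
    constructor
    · obtain ⟨τ, h1, -, h3⟩ := key 1 one_pos
      have h4 := h3 i
      simp only [pt, if_pos hi] at h4
      linarith [h4.1]
    · by_contra hc
      obtain ⟨τ, -, h2, h3⟩ := key (q i - (t i + l i)) (by linarith)
      have h4 := h3 i
      simp only [pt, if_pos hi] at h4
      linarith [h4.2]
  · intro i hi
    constructor
    · by_contra hc
      obtain ⟨τ, -, h2, h3⟩ := key (t i - q i) (by linarith)
      have h4 := h3 i
      simp only [pt, if_neg hi] at h4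
      linarith [h4.1]
    · obtain ⟨τ, h1, -, h3⟩ := key 1 one_pos
      have h4 := h3 i
      simp only [pt, if_neg hi] at h4
      linarith [h4.2]

/-- the members whose closed box meets `p + U` -/
def N (l : Fin d → ℝ) (t : ι → Fin d → ℝ) (U : Set (Fin d → ℝ)) (p : Fin d → ℝ) : Set ι :=
  {a | ∃ q ∈ closedBox l (t a), q - p ∈ U}

theorem pt_tendsto (q : Fin d → ℝ) (S : Finset (Fin d)) :
    Tendsto (fun τ => pt q S τ - q) (𝓝[>] (0 : ℝ)) (𝓝 0) := by
  rw [tendsto_pi_nhds]
  intro i
  have h : Tendsto (fun τ : ℝ => τ) (𝓝[>] (0 : ℝ)) (𝓝 0) := nhdsWithin_le_nhds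
  by_cases hi : i ∈ S
  · simp only [pt, if_pos hi, Pi.sub_apply, Pi.zero_apply]
    have h1 := h.neg
    rw [neg_zero] at h1
    exact h1.congr fun τ => by ring
  · simp only [pt, if_neg hi, Pi.sub_apply, Pi.zero_apply]
    exact h.congr fun τ => by ring

theorem exists_cov (hU : U ∈ 𝓝 (0 : Fin d → ℝ)) (hc : ∀ x, ∃ a, x ∈ closedBox l (t a))
    (hN : ∀ p, (N l t U p).encard ≤ (d + 1 : ℕ)) (q : Fin d → ℝ) (S : Finset (Fin d)) :
    ∃ a, Cov l (t a) q S := by
  have hfin : (N l t U q).Finite :=
    Set.finite_of_encard_le_coe (hN q)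
  by_contra hcon
  push Not at hcon
  have h1 : ∀ a ∈ N l t U q, ∀ᶠ τ in 𝓝[>] (0 : ℝ), ¬ pt q S τ ∈ closedBox l (t a) := by
    intro a _
    by_contra h2
    exact hcon a (cov_of_frequently (by simpa using h2))
  have h2 := (hfin.eventually_all).2 h1
  obtain ⟨τ, h3, h4⟩ := (h2.and ((pt_tendsto q S).eventually hU)).exists
  obtain ⟨a, ha⟩ := hc (pt q S τ)
  exact h3 a ⟨pt q S τ, ha, h4⟩ ha

theorem cov_unique (hd : ∀ a b, a ≠ b → Disjoint (openBox l (t a)) (openBox l (t b)))
    {q : Fin d → ℝ} {S : Finset (Fin d)} {a b : ι} (ha : Cov l (t a) q S)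
    (hb : Cov l (t b) q S) : a = b := by
  by_contra hne
  obtain ⟨τ, h1, h2⟩ := (ha.eventually.and hb.eventually).exists
  exact Set.disjoint_left.1 (hd a b hne) h1 h2

theorem too_many (hN : ∀ p, (N l t U p).encard ≤ (d + 1 : ℕ)) (p : Fin d → ℝ) (u : Fin d → ι)
    (hU : Function.Injective u) (a b : ι) (hab : a ≠ b) (ha : ∀ k, u k ≠ a) (hb : ∀ k, u k ≠ b)
    (h1 : ∀ k, u k ∈ N l t U p) (h2 : a ∈ N l t U p) (h3 : b ∈ N l t U p) : False := by
  classical
  have e1 : ((Finset.univ.image u : Finset ι)).card = d := by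
    rw [Finset.card_image_of_injective _ hU, Finset.card_univ, Fintype.card_fin]
  have e2 : a ∉ insert b (Finset.univ.image u) := by
    simp only [Finset.mem_insert, Finset.mem_image, Finset.mem_univ, true_and, not_or, not_exists]
    exact ⟨hab, ha⟩
  have e3 : b ∉ Finset.univ.image u := by
    simp only [Finset.mem_image, Finset.mem_univ, true_and, not_exists]
    exact hb
  have e4 : (insert a (insert b (Finset.univ.image u)) : Finset ι).card = d + 2 := by
    rw [Finset.card_insert_of_notMem e2, Finset.card_insert_of_notMem e3, e1]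
  have e5 : ((insert a (insert b (Finset.univ.image u)) : Finset ι) : Set ι) ⊆ N l t U p := by
    intro x hx
    simp only [Finset.coe_insert, Finset.coe_image, Finset.coe_univ, Set.image_univ,
      Set.mem_insert_iff, Set.mem_range] at hx
    rcases hx with rfl | rfl | ⟨k, rfl⟩
    · exact h2
    · exact h3
    · exact h1 k
  have e6 := (Set.encard_le_encard e5).trans (hN p)
  rw [Set.encard_coe_eq_coe_finsetCard, e4] at e6
  have e7 : d + 2 ≤ d + 1 := by exact_mod_cast e6
  omega

theorem exists_cycle {n : ℕ} (f : Fin n → Fin n) (h : 0 < n) :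
    ∃ C : Finset (Fin n), C.Nonempty ∧ C.image f = C := by
  classical
  obtain ⟨C, hC, hmin⟩ := Finset.exists_min_image
    ((Finset.univ : Finset (Finset (Fin n))).filter fun C => C.Nonempty ∧ C.image f ⊆ C)
    Finset.card ⟨Finset.univ, by
      simp only [Finset.mem_filter, Finset.mem_univ, true_and]
      exact ⟨⟨⟨0, h⟩, Finset.mem_univ _⟩, Finset.subset_univ _⟩⟩
  simp only [Finset.mem_filter, Finset.mem_univ, true_and] at hC hmin
  refine ⟨C, hC.1, Finset.eq_of_subset_of_card_le hC.2 (hmin _ ⟨hC.1.image f, ?_⟩)⟩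
  exact Finset.image_subset_image hC.2

/-- the point at height `h` on the edge -/
noncomputable def qh (v : Fin d → ℝ) (m : Fin d) (h : ℝ) : Fin d → ℝ :=
  Function.update v m (v m + h)

theorem qh_self (v : Fin d → ℝ) (m : Fin d) (h : ℝ) : qh v m h m = v m + h := by
  simp [qh]

theorem qh_ne (v : Fin d → ℝ) {m i : Fin d} (h : ℝ) (hi : i ≠ m) : qh v m h i = v i := by
  simp [qh, Function.update_of_ne hi]

theorem qh_zero (v : Fin d → ℝ) (m : Fin d) : qh v m 0 = v := by
  simp [qh]

theorem core (hd0 : 0 < d) (hl : ∀ i, 0 < l i) (hU : U ∈ 𝓝 (0 : Fin d → ℝ)) {ρ : Fin d → ℝ}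
    (hρ0 : ∀ m, 0 < ρ m) (hρ : ∀ m x, |x| < ρ m → (Pi.single m x : Fin d → ℝ) ∈ U)
    (hc : ∀ x, ∃ a, x ∈ closedBox l (t a))
    (hd : ∀ a b, a ≠ b → Disjoint (openBox l (t a)) (openBox l (t b)))
    (hN : ∀ p, (N l t U p).encard ≤ (d + 1 : ℕ)) : ∃ m, 2 * ρ m * d ≤ l m := by
  classical
  choose F hF using exists_cov hU hc hN
  obtain ⟨K, -⟩ := hc 0
  set v : Fin d → ℝ := t K with hv
  have memN : ∀ (q : Fin d → ℝ) (a : ι), (∀ i, t a i ≤ q i ∧ q i ≤ t a i + l i) →
      a ∈ N l t U q := fun q a h => ⟨q, h, by rw [sub_self]; exact mem_of_mem_nhds hU⟩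
  have hK0 : Cov l (t K) v ∅ :=
    ⟨fun i hi => absurd hi (Finset.notMem_empty i), fun i _ => ⟨le_rfl, by linarith [hl i]⟩⟩
  have w1 : ∀ i, Cov l (t (F v {i})) v {i} := fun i => hF v {i}
  have w2 : ∀ i, F v {i} ≠ K := by
    intro i h
    have h1 := (w1 i).neg i (Finset.mem_singleton_self i)
    rw [h] at h1
    exact lt_irrefl _ h1.1
  have w3 : ∀ i, t (F v {i}) i + l i = v i := by
    intro i
    have h1 := (w1 i).neg i (Finset.mem_singleton_self i)
    refine le_antisymm ?_ h1.2
    by_contra h2
    push Not at h2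
    refine w2 i (cov_unique hd (q := v) (S := ∅) ⟨fun j hj => absurd hj (Finset.notMem_empty j),
      fun j _ => ?_⟩ hK0)
    by_cases hj : j = i
    · subst hj
      exact ⟨h1.1.le, h2⟩
    · exact (w1 i).pos j (by simpa using hj)
  have w4 : Function.Injective fun i => F v {i} := by
    intro i j hij
    by_contra hne
    have h1 := w1 i
    have h2 := w1 j
    simp only at hij
    rw [← hij] at h2
    refine w2 i (cov_unique hd (h1.mix h2 (S'' := ∅) (fun k hk => absurd hk
      (Finset.notMem_empty k)) (fun k _ => ?_)) hK0)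
    by_cases hk : k = i
    · subst hk
      exact Or.inr (by simpa using hne)
    · exact Or.inl (by simpa using hk)
  -- all members at `v`
  have w5 : ∀ a, a ∈ N l t U v → a = K ∨ ∃ i, a = F v {i} := by
    intro a ha
    by_contra hcon
    push Not at hcon
    exact too_many hN v (fun i => F v {i}) w4 K a hcon.1.symm w2 (fun k h => hcon.2 k h.symm)
      (fun k => memN _ _ (w1 k).closed) (memN _ _ hK0.closed) ha
  -- the direction `m`
  obtain ⟨m, hm⟩ : ∃ m, ∀ i, i ≠ m → t (F v {i}) m < v m := by
    by_contra hcon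
    push Not at hcon
    choose f hf1 hf2 using hcon
    obtain ⟨C, ⟨c0, hc0⟩, hC⟩ := exists_cycle f hd0
    have hX := hF v C
    rcases w5 _ (memN _ _ hX.closed) with h | ⟨i, h⟩
    · have h1 := hX.neg c0 hc0
      rw [h] at h1
      exact lt_irrefl _ h1.1
    · rw [h] at hX
      by_cases hi : i ∈ C
      · rw [← hC] at hi
        obtain ⟨k, hk, rfl⟩ := Finset.mem_image.1 hi
        exact absurd (hX.neg k hk).1 (not_lt.2 (hf2 k))
      · have h1 := (hX.pos i hi).2
        rw [w3] at h1
        exact lt_irrefl _ h1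
  refine ⟨m, ?_⟩
  by_contra hlt
  push Not at hlt
  -- the edge
  have kneg : ∀ h, 0 < h → h ≤ l m → Cov l (t K) (qh v m h) {m} := by
    intro h h0 h1
    refine ⟨fun i hi => ?_, fun i hi => ?_⟩
    · rw [Finset.mem_singleton] at hi
      subst hi
      rw [qh_self]
      exact ⟨by linarith, by linarith⟩
    · rw [Finset.mem_singleton] at hi
      rw [qh_ne v h hi]
      exact ⟨le_rfl, by linarith [hl i]⟩
  have kno : ∀ h S, Cov l (t K) (qh v m h) S → ∀ i, i ≠ m → i ∉ S := by
    intro h S hS i hi hiS
    have h1 := (hS.neg i hiS).1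
    rw [qh_ne v h hi] at h1
    exact lt_irrefl _ h1
  -- the member after `K`
  set L : ℝ := l m with hL
  have hL0 : 0 < L := hl m
  set K' : ι := F (qh v m L) ∅ with hK'
  have k1 : Cov l (t K') (qh v m L) ∅ := hF _ _
  have k2 : t K' m = v m + L := by
    have h1 := k1.pos m (Finset.notMem_empty m)
    rw [qh_self] at h1
    by_contra hne
    have hlt' : t K' m < v m + L := lt_of_le_of_ne h1.1 hne
    have h2 : K' = K := by
      refine cov_unique hd (q := qh v m L) (S := {m}) ⟨fun i hi => ?_, fun i hi =>
        k1.pos i (Finset.notMem_empty i)⟩ (kneg L hL0 le_rfl)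
      rw [Finset.mem_singleton] at hi
      subst hi
      rw [qh_self]
      exact ⟨hlt', h1.2.le⟩
    rw [h2] at h1
    exact lt_irrefl _ h1.2
  -- the members beside the edge, just before its end
  have z1 : ∀ i, Cov l (t (F (qh v m L) {i, m})) (qh v m L) {i, m} := fun i => hF _ _
  have z2 : ∀ i, t (F (qh v m L) {i, m}) m < v m + L ∧ v m ≤ t (F (qh v m L) {i, m}) m := by
    intro i
    have h1 := (z1 i).neg m (by simp)
    rw [qh_self] at h1
    exact ⟨h1.1, by linarith [h1.2]⟩
  have z3 : ∀ i, i ≠ m → v m < t (F (qh v m L) {i, m}) m := by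
    intro i hi
    refine lt_of_le_of_ne (z2 i).2 fun h => ?_
    have h2 : F (qh v m L) {i, m} = F v {i} := by
      refine cov_unique hd (q := v) (S := {i}) ⟨fun j hj => ?_, fun j hj => ?_⟩ (w1 i)
      · rw [Finset.mem_singleton] at hj
        subst hj
        have h3 := (z1 j).neg j (by simp)
        rwa [qh_ne v L hi] at h3
      · rw [Finset.mem_singleton] at hj
        by_cases hjm : j = m
        · subst hjm
          exact ⟨h.ge, by linarith [hl j]⟩
        · have h3 := (z1 i).pos j (by simp [hj, hjm])
          rwa [qh_ne v L hjm] at h3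
    have h3 := hm i hi
    rw [← h2] at h3
    linarith
  -- the `d + 1` members that start on the edge
  set Y : Option (Fin d) → ι := fun o => o.elim K' fun i => if i = m then K else
    F (qh v m L) {i, m} with hY
  have y1 : ∀ o, v m ≤ t (Y o) m ∧ t (Y o) m ≤ v m + L := by
    intro o
    rcases o with _ | i
    · show v m ≤ t K' m ∧ t K' m ≤ v m + L
      rw [k2]
      exact ⟨by linarith, le_rfl⟩
    · by_cases hi : i = m
      · have : Y (some i) = K := if_pos hi
        rw [this]
        exact ⟨le_rfl, by linarith⟩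
      · have : Y (some i) = F (qh v m L) {i, m} := if_neg hi
        rw [this]
        exact ⟨(z2 i).2, (z2 i).1.le⟩
  have y2 : ∀ o, ∀ i, t (Y o) i ≤ qh v m (t (Y o) m - v m) i ∧
      qh v m (t (Y o) m - v m) i ≤ t (Y o) i + l i := by
    intro o i
    by_cases him : i = m
    · subst him
      rw [qh_self]
      exact ⟨by linarith, by linarith [hl i]⟩
    · rw [qh_ne v _ him]
      rcases o with _ | j
      · have h3 := k1.closed i
        rwa [qh_ne v L him] at h3
      · by_cases hj : j = m
        · have : Y (some j) = K := if_pos hj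
          rw [this]
          exact ⟨le_rfl, by linarith [hl i]⟩
        · have : Y (some j) = F (qh v m L) {j, m} := if_neg hj
          rw [this]
          have h3 := (z1 j).closed i
          rwa [qh_ne v L him] at h3
  have y3 : Function.Injective Y := by
    have a1 : ∀ i, i ≠ m → Y (some i) = F (qh v m L) {i, m} := fun i hi => if_neg hi
    have a2 : Y (some m) = K := if_pos rfl
    have a3 : ∀ i, Y (some i) ≠ Y none := by
      intro i h
      have h1 : t (Y (some i)) m = v m + L := by
        rw [h]
        exact k2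
      by_cases hi : i = m
      · rw [hi, a2] at h1
        linarith
      · rw [a1 i hi] at h1
        linarith [(z2 i).1]
    have a4 : ∀ i, i ≠ m → Y (some i) ≠ Y (some m) := by
      intro i hi h
      rw [a1 i hi, a2] at h
      have := z3 i hi
      rw [h] at this
      exact lt_irrefl _ this
    have a5 : ∀ i j, i ≠ m → j ≠ m → i ≠ j → Y (some i) ≠ Y (some j) := by
      intro i j hi hj hij h
      rw [a1 i hi, a1 j hj] at h
      have h1 := z1 i
      have h2 := z1 j
      rw [← h] at h2
      have h3 : F (qh v m L) {i, m} = K := by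
        refine cov_unique hd (h1.mix h2 (S'' := {m}) (fun k hk => ?_) (fun k hk => ?_))
          (kneg L hL0 le_rfl)
        · rw [Finset.mem_singleton] at hk
          subst hk
          exact Or.inl (by simp)
        · rw [Finset.mem_singleton] at hk
          by_cases hki : k = i
          · subst hki
            exact Or.inr (by simp [hij, hk])
          · exact Or.inl (by simp [hki, hk])
      have := z3 i hi
      rw [h3] at this
      exact lt_irrefl _ this
    intro o o' h
    rcases o with _ | i <;> rcases o' with _ | j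
    · rfl
    · exact absurd h.symm (a3 j)
    · exact absurd h (a3 i)
    · by_cases hij : i = j
      · rw [hij]
      · exfalso
        by_cases hi : i = m
        · subst hi
          exact a4 j (Ne.symm hij) h.symm
        · by_cases hj : j = m
          · subst hj
            exact a4 i hi h
          · exact a5 i j hi hj hij h
  -- two of them start at distance less than `2 ε`
  have hdpos : (0 : ℝ) < d := by exact_mod_cast hd0
  have hε := hρ0 m
  obtain ⟨o, -, o', -, hoo, hfl⟩ := Finset.exists_ne_map_eq_of_card_lt_of_maps_to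
    (s := (Finset.univ : Finset (Option (Fin d)))) (t := Finset.range d)
    (f := fun o => ⌊(t (Y o) m - v m) / (2 * ρ m)⌋₊)
    (by rw [Finset.card_univ, Fintype.card_option, Fintype.card_fin, Finset.card_range]; omega)
    (by
      intro o _
      rw [Finset.coe_range, Set.mem_Iio, Nat.floor_lt (div_nonneg (by linarith [(y1 o).1])
        (by linarith)), div_lt_iff₀ (by linarith)]
      linarith [(y1 o).2])
  have hclose : |(t (Y o) m - v m) - (t (Y o') m - v m)| < 2 * ρ m := by
    have e1 := Nat.floor_le (div_nonneg (sub_nonneg.2 (y1 o).1) (by linarith : (0:ℝ) ≤ 2 * ρ m))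
    have e2 := Nat.lt_floor_add_one ((t (Y o) m - v m) / (2 * ρ m))
    have e3 := Nat.floor_le (div_nonneg (sub_nonneg.2 (y1 o').1) (by linarith : (0:ℝ) ≤ 2 * ρ m))
    have e4 := Nat.lt_floor_add_one ((t (Y o') m - v m) / (2 * ρ m))
    rw [hfl] at e1 e2
    have hp : (0 : ℝ) < 2 * ρ m := by linarith
    rw [le_div_iff₀ hp] at e1 e3
    rw [div_lt_iff₀ hp] at e2 e4
    rw [abs_lt]
    constructor <;> nlinarith
  -- the contradiction
  have final : ∀ o o', o ≠ o' → t (Y o) m ≤ t (Y o') m →
      |(t (Y o) m - v m) - (t (Y o') m - v m)| < 2 * ρ m → False := by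
    intro o o' hne hle hab
    set y : ℝ := t (Y o) m - v m with hy
    set y' : ℝ := t (Y o') m - v m with hy'
    have hyy : y ≤ y' := by linarith
    have hy0 : 0 ≤ y := by linarith [(y1 o).1]
    have hyL : y ≤ L := by linarith [(y1 o).2]
    have hab' : y' - y < 2 * ρ m := by
      rw [abs_lt] at hab
      linarith [hab.1]
    set p : Fin d → ℝ := qh v m ((y + y') / 2) with hp
    have near : ∀ h, y ≤ h → h ≤ y' → qh v m h - p ∈ U := by
      intro h h1 h2
      have e : qh v m h - p = Pi.single m (h - (y + y') / 2) := by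
        funext i
        by_cases him : i = m
        · subst him
          rw [Pi.sub_apply, hp, qh_self, qh_self, Pi.single_eq_same]
          ring
        · rw [Pi.sub_apply, hp, qh_ne v _ him, qh_ne v _ him, Pi.single_eq_of_ne him, sub_self]
      rw [e]
      refine hρ m _ ?_
      rw [abs_lt]
      constructor <;> linarith
    have u1 : ∀ k, Cov l (t (F (qh v m y) {k, m})) (qh v m y) {k, m} := fun k => hF _ _
    have u2 : ∀ k, t (F (qh v m y) {k, m}) m < v m + y := by
      intro k
      have h1 := ((u1 k).neg m (by simp)).1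
      rwa [qh_self] at h1
    -- the members just before height `y` are different
    have u3 : ∀ k, k ≠ m → F (qh v m y) {k, m} ≠ F (qh v m y) {m} := by
      intro k hk h
      have h1 := u1 k
      rw [h] at h1
      have h2 : Cov l (t (F (qh v m y) {m})) (qh v m y) {m} := hF _ _
      rcases hy0.eq_or_lt with h0 | h0
      · rw [← h0, qh_zero] at h1 h2
        have h3 : Cov l (t (F v {k})) v {k, m} := by
          refine ⟨fun j hj => ?_, fun j hj => (w1 k).pos j (fun hj' => hj ?_)⟩
          · rw [Finset.mem_insert, Finset.mem_singleton] at hj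
            rcases hj with rfl | rfl
            · exact (w1 j).neg j (Finset.mem_singleton_self j)
            · exact ⟨hm k hk, ((w1 k).pos j (by simpa using hk.symm)).2.le⟩
          · rw [Finset.mem_singleton] at hj'
            simp [hj']
        have h4 := cov_unique hd h1 h3
        rw [h4] at h2
        have h5 := (h2.pos k (by simpa using hk)).2
        rw [w3] at h5
        exact lt_irrefl _ h5
      · have h3 := cov_unique hd h2 (kneg y h0 hyL)
        rw [h3] at h1
        exact kno _ _ h1 k hk (by simp)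
    have u4 : Function.Injective fun k => F (qh v m y) {k, m} := by
      intro k k' hkk
      by_contra hne'
      simp only at hkk
      have h1 := u1 k
      have h2 := u1 k'
      rw [← hkk] at h2
      have h3 : F (qh v m y) {k, m} = F (qh v m y) {m} := by
        refine cov_unique hd (h1.mix h2 (S'' := {m}) (fun j hj => ?_) (fun j hj => ?_)) (hF _ _)
        · rw [Finset.mem_singleton] at hj
          subst hj
          exact Or.inl (by simp)
        · rw [Finset.mem_singleton] at hj
          by_cases hjk : j = k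
          · subst hjk
            exact Or.inr (by simp [hne', hj])
          · exact Or.inl (by simp [hjk, hj])
      by_cases hk : k = m
      · have hk' : k' ≠ m := fun h => hne' (hk.trans h.symm)
        exact u3 k' hk' (hkk ▸ h3)
      · exact u3 k hk h3
    refine too_many hN p (fun k => F (qh v m y) {k, m}) u4 (Y o) (Y o') (fun h => hne (y3 h))
      (fun k h => ?_) (fun k h => ?_) (fun k => ⟨qh v m y, (u1 k).closed, near y le_rfl hyy⟩)
      ⟨qh v m y, y2 o, near y le_rfl hyy⟩ ⟨qh v m y', y2 o', near y' hyy le_rfl⟩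
    · have h1 := u2 k
      rw [h] at h1
      linarith
    · have h1 := u2 k
      rw [h] at h1
      linarith
  rcases le_total (t (Y o) m) (t (Y o') m) with h | h
  · exact final o o' hoo h hclose
  · exact final o' o hoo.symm h (by rw [abs_sub_comm]; exact hclose)

end core

section final

variable {d : ℕ} {E : Type} [NormedAddCommGroup E] [NormedSpace ℝ E] (b : Module.Basis (Fin d) ℝ E)

/-- the linear map with `e_i ↦ b i` -/
noncomputable def T : (Fin d → ℝ) →ₗ[ℝ] E := b.equivFun.symm.toLinearMap

theorem T_cont : Continuous (T b) := LinearMap.continuous_of_finiteDimensional _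

theorem repr_T (x : Fin d → ℝ) (i : Fin d) : b.repr (T b x) i = x i := by
  have h := b.equivFun.apply_symm_apply x
  exact congrFun h i

theorem T_repr (x : E) : T b (fun i => b.repr x i) = x :=
  b.equivFun.symm_apply_apply x

theorem T_single (m : Fin d) (x : ℝ) : T b (Pi.single m x) = x • b m := by
  show b.equivFun.symm (Pi.single m x) = x • b m
  rw [Module.Basis.equivFun_symm_apply, Finset.sum_eq_single m]
  · rw [Pi.single_eq_same]
  · intro i _ hi
    rw [Pi.single_eq_of_ne hi, zero_smul]
  · intro h
    exact absurd (Finset.mem_univ m) h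

variable {b}

/-- the edges are not longer than the diameter -/
theorem edge_le {t : Fin d → ℝ} {X : Set E}
    (h1 : ∀ x, (∀ i, t i < b.repr x i ∧ b.repr x i < t i + 1) → x ∈ X)
    (h2 : ∀ x ∈ X, ∀ i, t i ≤ b.repr x i ∧ b.repr x i ≤ t i + 1) {D : ℝ}
    (hD : Metric.diam X ≤ D) (m : Fin d) : ‖b m‖ ≤ D := by
  classical
  have hb : Bornology.IsBounded X := by
    refine ((isCompact_Icc (a := t) (b := fun i => t i + 1)).image (T_cont b)).isBounded.subset
      fun x hx => ?_
    exact ⟨fun i => b.repr x i, ⟨fun j => (h2 x hx j).1, fun j => (h2 x hx j).2⟩, T_repr b x⟩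
  by_contra hlt
  push Not at hlt
  have hD0 : 0 ≤ D := Metric.diam_nonneg.trans hD
  have hli : 0 < ‖b m‖ := hD0.trans_lt hlt
  set s : ℝ := (1 - D / ‖b m‖) / 4 with hs
  have hDl : D / ‖b m‖ < 1 := (div_lt_one hli).2 hlt
  have hDl0 : 0 ≤ D / ‖b m‖ := div_nonneg hD0 hli.le
  have hs0 : 0 < s := by linarith
  have hs1 : s < 1 / 2 := by linarith
  have hx : ∀ r : ℝ, |r| < 1 / 2 →
      T b ((fun j => t j + 1 / 2) + Pi.single m r) ∈ X := by
    intro r hr
    rw [abs_lt] at hr
    refine h1 _ fun j => ?_
    rw [repr_T, Pi.add_apply]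
    by_cases hj : j = m
    · subst hj
      rw [Pi.single_eq_same]
      constructor <;> linarith
    · rw [Pi.single_eq_of_ne hj]
      constructor <;> linarith
  have h3 := Metric.dist_le_diam_of_mem hb (hx (1 / 2 - s) (by rw [abs_lt]; constructor <;> linarith))
    (hx (-(1 / 2 - s)) (by rw [abs_lt]; constructor <;> linarith))
  rw [dist_eq_norm, ← map_sub, add_sub_add_left_eq_sub, ← Pi.single_sub, T_single, norm_smul,
    Real.norm_eq_abs] at h3
  have h5 := h3.trans hD
  have h6 : (1 / 2 - s) - -(1 / 2 - s) = 1 - 2 * s := by ring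
  rw [h6, abs_of_pos (by linarith)] at h5
  have h7 : (1 - 2 * s) * ‖b m‖ = (‖b m‖ + D) / 2 := by
    rw [hs]
    field_simp
    ring
  rw [h7] at h5
  linarith

end final

/-- **Main theorem.** -/
theorem result (d : ℕ) (hd : 0 < d) (E : Type) [NormedAddCommGroup E] [NormedSpace ℝ E]
    (b : Module.Basis (Fin d) ℝ E) (P : Set (Set E)) (hP : IsPartition P) (hT : TranslatesOf b P)
    (D : ℝ) (hD : ∀ X ∈ P, Metric.diam X ≤ D) (ε : ℝ) (hε : 0 < ε) (hs : Secluded (d + 1) ε P) :
    ε ≤ D / (2 * d) := by
  classical
  choose! c hc1 hc2 using hT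
  have hb : ∀ m, 0 < ‖b m‖ := fun m => norm_pos_iff.2 (b.ne_zero m)
  have h := core (ι := P) (l := fun _ => 1) (t := fun X => c X) (U := {x | ‖T b x‖ < ε}) hd
    (fun _ => one_pos) ?_ (ρ := fun m => ε / ‖b m‖) (fun m => div_pos hε (hb m)) ?_ ?_ ?_ ?_
  · obtain ⟨m, hm⟩ := h
    obtain ⟨X, hX, -⟩ := hP.cover 0
    have h1 := edge_le (hc1 X hX) (hc2 X hX) (hD X hX) m
    have hd' : (0 : ℝ) < d := by exact_mod_cast hd
    have h2 : 2 * (ε / ‖b m‖) * d = 2 * ε * d / ‖b m‖ := by ring
    rw [h2, div_le_one (hb m)] at hm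
    rw [le_div_iff₀ (by linarith)]
    linarith
  · refine (isOpen_lt (T_cont b).norm continuous_const).mem_nhds ?_
    show ‖T b 0‖ < ε
    rw [map_zero, norm_zero]
    exact hε
  · intro m x hx
    show ‖T b (Pi.single m x)‖ < ε
    rw [T_single, norm_smul, Real.norm_eq_abs]
    exact (lt_div_iff₀ (hb m)).1 hx
  · intro x
    obtain ⟨X, hX, hx⟩ := hP.cover (T b x)
    refine ⟨⟨X, hX⟩, fun i => ?_⟩
    have h1 := hc2 X hX _ hx i
    rwa [repr_T] at h1
  · intro X Y hne
    rw [Set.disjoint_left]
    intro x hx hy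
    refine Set.disjoint_left.1 (hP.disjoint X X.2 Y Y.2 fun h => hne (Subtype.ext h))
      (hc1 X X.2 (T b x) fun i => ?_) (hc1 Y Y.2 (T b x) fun i => ?_)
    · rw [repr_T]
      exact hx i
    · rw [repr_T]
      exact hy i
  · intro p
    refine le_trans ?_ (hs (T b p))
    rw [← (Subtype.val_injective (p := fun X => X ∈ P)).encard_image]
    refine Set.encard_le_encard ?_
    rintro _ ⟨X, ⟨q, hq, hqp⟩, rfl⟩
    refine ⟨X.2, ?_⟩
    -- a point of the open box near `q`
    have hev : ∀ᶠ τ in 𝓝[>] (0 : ℝ),
        (∀ i, c X i < q i + τ * (c X i + 1 / 2 - q i) ∧ q i + τ * (c X i + 1 / 2 - q i) < c X i + 1) ∧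
        ‖T b ((fun i => q i + τ * (c X i + 1 / 2 - q i)) - p)‖ < ε := by
      refine Filter.Eventually.and (eventually_all.2 fun i => ?_) ?_
      · have h1 := hq i
        filter_upwards [Ioo_mem_nhdsGT (one_pos : (0 : ℝ) < 1)] with τ hτ
        constructor <;> nlinarith [hτ.1, hτ.2, mul_nonneg (sub_nonneg.2 hτ.2.le)
          (sub_nonneg.2 h1.1), mul_nonneg (sub_nonneg.2 hτ.2.le) (sub_nonneg.2 h1.2)]
      · have h1 : Tendsto (fun τ : ℝ => ‖T b ((fun i => q i + τ * (c X i + 1 / 2 - q i)) - p)‖)
            (𝓝[>] 0) (𝓝 ‖T b ((fun i => q i + 0 * (c X i + 1 / 2 - q i)) - p)‖) := by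
          refine Tendsto.mono_left ?_ nhdsWithin_le_nhds
          have hcont : Continuous fun τ : ℝ =>
              ‖T b ((fun i => q i + τ * (c X i + 1 / 2 - q i)) - p)‖ := by
            refine ((T_cont b).comp ((continuous_pi fun i => ?_).sub continuous_const)).norm
            exact continuous_const.add (continuous_id.mul continuous_const)
          exact hcont.tendsto 0
        simp only [zero_mul, add_zero] at h1
        exact h1.eventually (gt_mem_nhds hqp)
    obtain ⟨τ, h1, h2⟩ := hev.exists
    refine ⟨T b (fun i => q i + τ * (c X i + 1 / 2 - q i)), hc1 X X.2 _ fun i => ?_, ?_⟩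
    · rw [repr_T]
      exact h1 i
    · rw [Metric.mem_closedBall, dist_eq_norm, ← map_sub]
      exact h2.le

end Pool.Agent.Results.MP_1e9e92_co.TranslatedBoxes
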